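import Mathlib

set_option autoImplicit false
open Finset

namespace Pool.Agent.H.MP_c213cb_ag

abbrev X := Fin 20 → Fin 2

section
variable {F : Type} [Field F]

def CI (R : X → F) (i j : Fin 20) (K : Finset (Fin 20)) : Prop :=
  ∀ x y : X, (∀ k ∈ K, x k = y k) →
    (∑ z ∈ (univ : Finset X).filter (fun z : X => ∀ k ∈ insert i (insert j K), z k = x k), R z) *
    (∑ z ∈ (univ : Finset X).filter (fun z : X => ∀ k ∈ insert i (insert j K), z k = y k), R z) =
    (∑ z ∈ (univ : Finset X).filter (fun z : X =>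
      ∀ k ∈ insert i (insert j K), z k = Function.update x j (y j) k), R z) *
    (∑ z ∈ (univ : Finset X).filter (fun z : X =>
      ∀ k ∈ insert i (insert j K), z k = Function.update y j (x j) k), R z)

def mm (R : X → F) (i j : Fin 20) (K : Finset (Fin 20)) (s t : Fin 2) (x : X) : F :=
  ∑ z, if z i = s ∧ z j = t ∧ ∀ k ∈ K, z k = x k then R z else 0

theorem CI_iff (R : X → F) {i j : Fin 20} {K : Finset (Fin 20)} (h : i ≠ j) (hi : i ∉ K) (hj : j ∉ K) :
    CI R i j K ↔ ∀ x, mm R i j K 0 0 x * mm R i j K 1 1 x = mm R i j K 0 1 x * mm R i j K 1 0 x := by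
  have e : ∀ x w : X, (∀ k ∈ K, w k = x k) →
      (∑ z ∈ (univ : Finset X).filter (fun z : X => ∀ k ∈ insert i (insert j K), z k = w k), R z) =
        mm R i j K (w i) (w j) x := fun x w hw => by
    rw [sum_filter, mm]
    congr! 2 with z
    simp only [forall_mem_insert]
    exact and_congr_right fun _ => and_congr_right fun _ =>
      forall₂_congr fun k hk => by rw [hw k hk]
  have u : ∀ (x : X) (s : Fin 2) (a : Fin 20), a ∉ K → ∀ k ∈ K, Function.update x a s k = x k :=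
    fun x s a ha k hk => Function.update_of_ne (fun h : k = a => ha (h ▸ hk)) _ _
  have e2 : CI R i j K ↔ ∀ x y : X, (∀ k ∈ K, x k = y k) →
      mm R i j K (x i) (x j) x * mm R i j K (y i) (y j) x =
        mm R i j K (x i) (y j) x * mm R i j K (y i) (x j) x := by
    refine forall₃_congr fun x y hxy => ?_
    rw [e x x fun _ _ => rfl, e x y fun k hk => (hxy k hk).symm, e x _ (u x _ j hj),
      e x _ fun k hk => (u y _ j hj k hk).trans (hxy k hk).symm]
    simp [Function.update_of_ne h]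
  have e3 : ∀ (x w : X) s t, (∀ k ∈ K, w k = x k) → mm R i j K s t w = mm R i j K s t x :=
    fun x w s t hw => by
      unfold mm
      congr! 5 with z _ k
      exact imp_congr_right fun hk => by rw [hw k hk]
  rw [e2]
  constructor
  · intro H x
    have a0 : ∀ s t, ∀ k ∈ K, Function.update (Function.update x i s) j t k = x k :=
      fun s t k hk => (u _ _ j hj k hk).trans (u _ _ i hi k hk)
    have := H (Function.update (Function.update x i 0) j 0) (Function.update (Function.update x i 1) j 1)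
      fun k hk => (a0 _ _ k hk).trans (a0 _ _ k hk).symm
    simpa [Function.update_of_ne h, e3 x _ _ _ (a0 0 0)] using this
  · intro H x y _
    have := H x
    generalize x i = a, x j = b, y i = c, y j = d
    fin_cases a <;> fin_cases b <;> fin_cases c <;> fin_cases d <;> simp only [Fin.zero_eta, Fin.mk_one] <;>
      first | ring1 | linear_combination this | linear_combination -this

def A (R : X → F) (i j : Fin 20) (s t a b : Fin 2) : F :=
  ∑ z, if z i = s ∧ z j = t ∧ z 0 = a ∧ z 1 = b then R z else 0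
def B (R : X → F) (i : Fin 20) (a b : Fin 2) : F :=
  ∑ z, if z i = 0 ∧ z 0 = a ∧ z 1 = b then R z else 0
def w (R : X → F) (a b : Fin 2) : F := ∑ z, if z 0 = a ∧ z 1 = b then R z else 0

theorem mmK (R : X → F) (i j : Fin 20) (s t : Fin 2) (x : X) :
    mm R i j {0, 1} s t x = A R i j s t (x 0) (x 1) := by simp [mm, A]

theorem mm0 (R : X → F) (i j : Fin 20) (s t : Fin 2) (x : X) :
    mm R i j ∅ s t x = A R i j s t 0 0 + A R i j s t 0 1 + A R i j s t 1 0 + A R i j s t 1 1 := by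
  simp only [mm, A, ← sum_add_distrib]
  congr! 1 with z
  generalize z 0 = a, z 1 = b
  fin_cases a <;> fin_cases b <;> simp

theorem AB1 (R : X → F) (i j : Fin 20) (a b : Fin 2) : A R i j 0 0 a b + A R i j 0 1 a b = B R i a b := by
  simp only [B, A, ← sum_add_distrib]
  congr! 1 with z
  generalize z j = c
  fin_cases c <;> simp

theorem AB2 (R : X → F) (i j : Fin 20) (a b : Fin 2) : A R i j 0 0 a b + A R i j 1 0 a b = B R j a b := by
  simp only [B, A, ← sum_add_distrib]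
  congr! 1 with z
  generalize z i = c
  fin_cases c <;> simp

theorem AB3 (R : X → F) (i j : Fin 20) (a b : Fin 2) :
    A R i j 0 0 a b + A R i j 0 1 a b + A R i j 1 0 a b + A R i j 1 1 a b = w R a b := by
  simp only [w, A, ← sum_add_distrib]
  congr! 1 with z
  generalize z i = c, z j = d
  fin_cases c <;> fin_cases d <;> simp

def pp (R : X → F) (i : Fin 20) (a b : Fin 2) : F := B R i a b / w R a b - B R i 0 0 / w R 0 0
def ll (R : X → F) (j : Fin 20) (a b : Fin 2) : F :=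
  (w R 0 0 + w R 0 1 + w R 1 0 + w R 1 1) * B R j a b -
    w R a b * (B R j 0 0 + B R j 0 1 + B R j 1 0 + B R j 1 1)

theorem key (R : X → F) (hw : ∀ a b, w R a b ≠ 0) {i j : Fin 20} (h : i ≠ j)
    (hi : i ∉ ({0, 1} : Finset (Fin 20))) (hj : j ∉ ({0, 1} : Finset (Fin 20))) (H : CI R i j {0, 1}) :
    CI R i j ∅ ↔ pp R i 0 1 * ll R j 0 1 + pp R i 1 0 * ll R j 1 0 + pp R i 1 1 * ll R j 1 1 = 0 := by
  rw [CI_iff R h hi hj] at H
  have H1 : ∀ a b, A R i j 0 0 a b = B R i a b * B R j a b / w R a b := fun a b => by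
    have := H fun k => if k = 0 then a else b
    simp only [mmK] at this
    simp only [if_true, show ((1 : Fin 20) = 0) = False by simp, if_false] at this
    rw [eq_div_iff (hw a b), ← AB1 R i j, ← AB2 R i j, ← AB3 R i j]
    linear_combination this
  have H2 : ∀ a b, A R i j 0 1 a b = B R i a b - B R i a b * B R j a b / w R a b := fun a b => by
    rw [← H1, ← AB1 R i j]; ring
  have H3 : ∀ a b, A R i j 1 0 a b = B R j a b - B R i a b * B R j a b / w R a b := fun a b => by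
    rw [← H1, ← AB2 R i j]; ring
  have H4 : ∀ a b, A R i j 1 1 a b = w R a b - B R i a b - B R j a b +
      B R i a b * B R j a b / w R a b := fun a b => by
    rw [← H1, ← AB3 R i j, ← AB1 R i j, ← AB2 R i j]; ring
  rw [CI_iff R h (by simp) (by simp)]
  simp only [mm0, forall_const, H1, H2, H3, H4, pp, ll]
  rw [← sub_eq_zero]
  have := hw 0 0
  have := hw 0 1
  have := hw 1 0
  have := hw 1 1
  congr! 1
  field_simp
  ring

end

theorem w_pos {F : Type} [Field F] [LinearOrder F] [IsStrictOrderedRing F] (R : X → F)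
    (h : ∀ x, 0 < R x) (a b : Fin 2) : w R a b ≠ 0 := by
  refine (sum_pos' (fun z _ => ?_) ⟨fun k => if k = 0 then a else b, mem_univ _, ?_⟩).ne'
  · split_ifs
    exacts [(h _).le, le_rfl]
  · simpa using h _

def sg (s : Fin 2) : ℝ := if s = 0 then 1 else -1

noncomputable def ff (v : Fin 3 → ℝ) (a b : Fin 2) : ℝ := (v 0 * sg a + v 1 * sg b + v 2 * sg a * sg b) / 8

noncomputable def PP (v : Fin 20 → Fin 3 → ℝ) (x : X) : ℝ := ∏ k, (1 + sg (x k) * ff (v k) (x 0) (x 1))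

theorem PP_pos (v : Fin 20 → Fin 3 → ℝ) (h : ∀ k c, |v k c| ≤ 2) (x : X) : 0 < PP v x := by
  refine prod_pos fun k _ => ?_
  have h0 := abs_le.mp (h k 0)
  have h1 := abs_le.mp (h k 1)
  have h2 := abs_le.mp (h k 2)
  unfold ff sg
  split_ifs <;> linarith

theorem PP_A (v : Fin 20 → Fin 3 → ℝ) (h0 : v 0 = 0) (h1 : v 1 = 0) {i j : Fin 20} (h : i ≠ j)
    (hi : i ∉ ({0, 1} : Finset (Fin 20))) (hj : j ∉ ({0, 1} : Finset (Fin 20))) :
    ∃ c : ℝ, c ≠ 0 ∧ ∀ s t a b, A (PP v) i j s t a b =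
      c * (1 + sg s * ff (v i) a b) * (1 + sg t * ff (v j) a b) := by
  simp only [mem_insert, mem_singleton, not_or] at hi hj
  refine ⟨∏ k ∈ (univ.erase i).erase j, if k = 0 ∨ k = 1 then 1 else 2,
    prod_ne_zero_iff.mpr fun k _ => by split_ifs <;> norm_num, fun s t a b => ?_⟩
  have e : A (PP v) i j s t a b = ∏ k : Fin 20, ∑ r : Fin 2,
      if (k = i → r = s) ∧ (k = j → r = t) ∧ (k = 0 → r = a) ∧ (k = 1 → r = b) then
        1 + sg r * ff (v k) a b else 0 := by
    rw [prod_univ_sum, Fintype.piFinset_univ, A]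
    congr! 1 with z
    rw [prod_ite_zero]
    simp only [mem_univ, forall_const, forall_and, forall_eq]
    split_ifs with hz
    · rw [PP, hz.2.2.1, hz.2.2.2]
    · rfl
  rw [e, ← mul_prod_erase _ _ (mem_univ i), ← mul_prod_erase _ _ (mem_erase.mpr ⟨h.symm, mem_univ j⟩)]
  have e2 : ∀ k ∈ (univ.erase i).erase j, (∑ r : Fin 2,
      if (k = i → r = s) ∧ (k = j → r = t) ∧ (k = 0 → r = a) ∧ (k = 1 → r = b) then
        1 + sg r * ff (v k) a b else 0) = if k = 0 ∨ k = 1 then 1 else 2 := fun k hk => by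
    simp only [mem_erase] at hk
    by_cases k0 : k = 0
    · subst k0
      simp [hk.1, hk.2.1, h0, ff]
    by_cases k1 : k = 1
    · subst k1
      simp [hk.1, hk.2.1, h1, ff]
    simp [hk.1, hk.2.1, k0, k1, sg]
    ring
  rw [prod_congr rfl e2]
  simp [h, h.symm, hi.1, hi.2, hj.1, hj.2]
  ring

theorem PP_CI (v : Fin 20 → Fin 3 → ℝ) (h0 : v 0 = 0) (h1 : v 1 = 0) {i j : Fin 20} (h : i ≠ j)
    (hi : i ∉ ({0, 1} : Finset (Fin 20))) (hj : j ∉ ({0, 1} : Finset (Fin 20))) :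
    CI (PP v) i j {0, 1} ∧ (CI (PP v) i j ∅ ↔ v i 0 * v j 0 + v i 1 * v j 1 + v i 2 * v j 2 = 0) := by
  obtain ⟨c, hc, e⟩ := PP_A v h0 h1 h hi hj
  rw [CI_iff _ h hi hj, CI_iff _ h (by simp) (by simp)]
  simp only [mmK, mm0, e, forall_const]
  refine ⟨fun x => by ring, ?_⟩
  rw [← sub_eq_zero, ← mul_eq_zero_iff_left (b := v i 0 * v j 0 + _ + _) (pow_ne_zero 2 hc)]
  congr! 1
  simp [ff, sg]
  ring

theorem col {p0 p1 p2 q0 q1 q2 r0 r1 r2 s0 s1 s2 l0 l1 l2 x0 x1 x2 y0 y1 y2 z0 z1 z2 : ℚ}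
    (hp : p0 * l0 + p1 * l1 + p2 * l2 = 0) (hq : q0 * l0 + q1 * l1 + q2 * l2 = 0)
    (hr : r0 * l0 + r1 * l1 + r2 * l2 = 0) (hs : ¬ s0 * l0 + s1 * l1 + s2 * l2 = 0) :
    (p0 * x0 + p1 * x1 + p2 * x2) * ((q0 * y0 + q1 * y1 + q2 * y2) * (r0 * z0 + r1 * z1 + r2 * z2) -
        (q0 * z0 + q1 * z1 + q2 * z2) * (r0 * y0 + r1 * y1 + r2 * y2)) -
      (p0 * y0 + p1 * y1 + p2 * y2) * ((q0 * x0 + q1 * x1 + q2 * x2) * (r0 * z0 + r1 * z1 + r2 * z2) -
        (q0 * z0 + q1 * z1 + q2 * z2) * (r0 * x0 + r1 * x1 + r2 * x2)) +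
      (p0 * z0 + p1 * z1 + p2 * z2) * ((q0 * x0 + q1 * x1 + q2 * x2) * (r0 * y0 + r1 * y1 + r2 * y2) -
        (q0 * y0 + q1 * y1 + q2 * y2) * (r0 * x0 + r1 * x1 + r2 * x2)) = 0 := by
  have : p0 * (q1 * r2 - q2 * r1) - p1 * (q0 * r2 - q2 * r0) + p2 * (q0 * r1 - q1 * r0) = 0 := by
    refine (mul_eq_zero_iff_left hs).mp ?_
    linear_combination (s0 * (q1 * r2 - q2 * r1) - s1 * (q0 * r2 - q2 * r0) + s2 * (q0 * r1 - q1 * r0)) * hp +
      (p0 * (s1 * r2 - s2 * r1) - p1 * (s0 * r2 - s2 * r0) + p2 * (s0 * r1 - s1 * r0)) * hq +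
      (p0 * (q1 * s2 - q2 * s1) - p1 * (q0 * s2 - q2 * s0) + p2 * (q0 * s1 - q1 * s0)) * hr
  linear_combination (x0 * (y1 * z2 - y2 * z1) - x1 * (y0 * z2 - y2 * z0) + x2 * (y0 * z1 - y1 * z0)) * this

def vv (e : ℝ) : Fin 20 → Fin 3 → ℝ :=
  ![0, 0, ![1, 0, 0], ![0, 1, 0], ![1, e + 1, 1], ![1, e, e], ![1, e, 0], ![1, e + 1, 0], ![0, 1, 1],
    ![1, 0, 1], ![0, 0, 1], ![1, 0, 0], ![0, 1, 0], ![0, 0, 1], ![0, 1, -1], ![1, 0, -1],
    ![e + 1, -1, 0], ![e, -1, 0], ![e, -1, 1], ![e + 1, -1, -(e + 1)]]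

theorem five (t : ℚ) : t ^ 2 + t - 1 ≠ 0 := fun h => by
  have h1 : IsSquare ((5 : ℕ) : ℚ) := ⟨2 * t + 1, by push_cast; linear_combination -4 * h⟩
  rw [Rat.isSquare_natCast_iff] at h1
  exact absurd h1 (by decide +kernel)

theorem fin {a1 b2 i3 c1 c2 c3 d1 d2 d3 e1 e2 f1 f2 g2 g3 h1 h3 : ℚ}
    (na : a1 ≠ 0) (nb : b2 ≠ 0) (ni : i3 ≠ 0) (nc : c1 ≠ 0) (nd : d1 ≠ 0) (ne : e1 ≠ 0) (nf : f1 ≠ 0)
    (ng2 : g2 ≠ 0) (ng3 : g3 ≠ 0) (nh1 : h1 ≠ 0) (nh3 : h3 ≠ 0)
    (p4 : a1 * (d2 * g3 - d3 * g2) - 0 * (d1 * g3 - d3 * 0) + 0 * (d1 * g2 - d2 * 0) = 0)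
    (p5 : 0 * (c2 * h3 - c3 * 0) - b2 * (c1 * h3 - c3 * h1) + 0 * (c1 * 0 - c2 * h1) = 0)
    (p6 : 0 * (c2 * 0 - c3 * f2) - 0 * (c1 * 0 - c3 * f1) + i3 * (c1 * f2 - c2 * f1) = 0)
    (p7 : 0 * (d2 * 0 - d3 * e2) - 0 * (d1 * 0 - d3 * e1) + i3 * (d1 * e2 - d2 * e1) = 0)
    (p8 : c1 * (e2 * g3 - 0 * g2) - c2 * (e1 * g3 - 0 * 0) + c3 * (e1 * g2 - e2 * 0) = 0)
    (p9 : d1 * (f2 * h3 - 0 * 0) - d2 * (f1 * h3 - 0 * h1) + d3 * (f1 * 0 - f2 * h1) = 0) : False := by
  have q4 : d2 * g3 - d3 * g2 = 0 := (mul_eq_zero_iff_left na).mp (by linear_combination p4)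
  have q5 : c1 * h3 - c3 * h1 = 0 := (mul_eq_zero_iff_left nb).mp (by linear_combination -p5)
  have q6 : c1 * f2 - c2 * f1 = 0 := (mul_eq_zero_iff_left ni).mp (by linear_combination p6)
  have q7 : d1 * e2 - d2 * e1 = 0 := (mul_eq_zero_iff_left ni).mp (by linear_combination p7)
  have q8 : c1 * (e2 * g3) - c2 * (e1 * g3) + c3 * (e1 * g2) = 0 := by linear_combination p8
  have q9 : d1 * (f2 * h3) - d2 * (f1 * h3) - d3 * (f2 * h1) = 0 := by linear_combination p9
  clear p4 p5 p6 p7 p8 p9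
  have r2 : d2 = d1 * e2 / e1 := by field_simp; linear_combination -q7
  have r3 : d3 = d2 * g3 / g2 := by field_simp; linear_combination -q4
  have s2 : c2 = c1 * f2 / f1 := by field_simp; linear_combination -q6
  have s3 : c3 = c1 * h3 / h1 := by field_simp; linear_combination -q5
  subst r3 s2 s3 r2
  have t2 : f2 = f1 * (e2 / e1 + h3 * g2 / (h1 * g3)) := by
    field_simp at q8 ⊢
    exact mul_left_cancel₀ nc (by linear_combination -q8)
  subst t2
  apply five (e2 * g3 * h1 / (e1 * g2 * h3))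
  field_simp at q9 ⊢
  exact mul_left_cancel₀ (mul_ne_zero nd nf) (by linear_combination -q9)

theorem main : ∃ P : X → ℝ, (∀ x, 0 < P x) ∧ ∀ Q : X → ℚ, (∀ x, 0 < Q x) →
    ¬ ∀ (i j : Fin 20) (K : Finset (Fin 20)), i ≠ j → i ∉ K → j ∉ K → (CI P i j K ↔ CI Q i j K) := by
  obtain ⟨e, e0, e1, e2⟩ : ∃ e : ℝ, 0 < e ∧ e < 1 ∧ e ^ 2 + e - 1 = 0 := by
    have h5 : √5 ^ 2 = 5 := Real.sq_sqrt (by norm_num)
    have := Real.sqrt_nonneg 5
    exact ⟨(√5 - 1) / 2, by nlinarith, by nlinarith, by nlinarith⟩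
  refine ⟨PP (vv e), PP_pos _ fun k c => ?_, fun Q hQ H => ?_⟩
  · fin_cases k <;> fin_cases c <;> simp [vv, abs_le] <;> constructor <;> linarith
  have M : ∀ i j : Fin 20, i ≠ j → i ∉ ({0, 1} : Finset (Fin 20)) → j ∉ ({0, 1} : Finset (Fin 20)) →
      (pp Q i 0 1 * ll Q j 0 1 + pp Q i 1 0 * ll Q j 1 0 + pp Q i 1 1 * ll Q j 1 1 = 0 ↔
        vv e i 0 * vv e j 0 + vv e i 1 * vv e j 1 + vv e i 2 * vv e j 2 = 0) := fun i j h hi hj => by
    obtain ⟨h1, h2⟩ := PP_CI (vv e) rfl rfl h hi hj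
    rw [← key Q (w_pos Q hQ) h hi hj ((H i j _ h hi hj).mp h1), ← h2, H i j ∅ h (by simp) (by simp)]
  have Z : ∀ i j : Fin 20, i ≠ j → i ∉ ({0, 1} : Finset (Fin 20)) → j ∉ ({0, 1} : Finset (Fin 20)) →
      vv e i 0 * vv e j 0 + vv e i 1 * vv e j 1 + vv e i 2 * vv e j 2 = 0 → _ :=
    fun i j a b c => (M i j a b c).mpr
  have N : ∀ i j : Fin 20, i ≠ j → i ∉ ({0, 1} : Finset (Fin 20)) → j ∉ ({0, 1} : Finset (Fin 20)) →
      0 < vv e i 0 * vv e j 0 + vv e i 1 * vv e j 1 + vv e i 2 * vv e j 2 → _ :=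
    fun i j a b c d => (M i j a b c).not.mpr d.ne'
  have zB11 := Z 3 11 (by decide) (by decide) (by decide) (by simp [vv] <;> linarith)
  have zG11 := Z 8 11 (by decide) (by decide) (by decide) (by simp [vv] <;> linarith)
  have zI11 := Z 10 11 (by decide) (by decide) (by decide) (by simp [vv] <;> linarith)
  have zA12 := Z 2 12 (by decide) (by decide) (by decide) (by simp [vv] <;> linarith)
  have zH12 := Z 9 12 (by decide) (by decide) (by decide) (by simp [vv] <;> linarith)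
  have zI12 := Z 10 12 (by decide) (by decide) (by decide) (by simp [vv] <;> linarith)
  have zA13 := Z 2 13 (by decide) (by decide) (by decide) (by simp [vv] <;> linarith)
  have zB13 := Z 3 13 (by decide) (by decide) (by decide) (by simp [vv] <;> linarith)
  have zE13 := Z 6 13 (by decide) (by decide) (by decide) (by simp [vv] <;> linarith)
  have zF13 := Z 7 13 (by decide) (by decide) (by decide) (by simp [vv] <;> linarith)
  have zA14 := Z 2 14 (by decide) (by decide) (by decide) (by simp [vv] <;> linarith)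
  have zD14 := Z 5 14 (by decide) (by decide) (by decide) (by simp [vv] <;> linarith)
  have zG14 := Z 8 14 (by decide) (by decide) (by decide) (by simp [vv] <;> linarith)
  have zB15 := Z 3 15 (by decide) (by decide) (by decide) (by simp [vv] <;> linarith)
  have zC15 := Z 4 15 (by decide) (by decide) (by decide) (by simp [vv] <;> linarith)
  have zH15 := Z 9 15 (by decide) (by decide) (by decide) (by simp [vv] <;> linarith)
  have zC16 := Z 4 16 (by decide) (by decide) (by decide) (by simp [vv] <;> linarith)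
  have zF16 := Z 7 16 (by decide) (by decide) (by decide) (by simp [vv] <;> linarith)
  have zI16 := Z 10 16 (by decide) (by decide) (by decide) (by simp [vv] <;> linarith)
  have zD17 := Z 5 17 (by decide) (by decide) (by decide) (by simp [vv] <;> linarith)
  have zE17 := Z 6 17 (by decide) (by decide) (by decide) (by simp [vv] <;> linarith)
  have zI17 := Z 10 17 (by decide) (by decide) (by decide) (by simp [vv] <;> linarith)
  have zC18 := Z 4 18 (by decide) (by decide) (by decide) (by simp [vv] <;> linarith)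
  have zE18 := Z 6 18 (by decide) (by decide) (by decide) (by simp [vv] <;> linarith)
  have zG18 := Z 8 18 (by decide) (by decide) (by decide) (by simp [vv] <;> linarith)
  have zD19 := Z 5 19 (by decide) (by decide) (by decide) (by simp [vv] <;> linarith)
  have zF19 := Z 7 19 (by decide) (by decide) (by decide) (by simp [vv] <;> linarith)
  have zH19 := Z 9 19 (by decide) (by decide) (by decide) (by simp [vv] <;> linarith)
  have nA11 := N 2 11 (by decide) (by decide) (by decide) (by simp [vv] <;> linarith)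
  have nB12 := N 3 12 (by decide) (by decide) (by decide) (by simp [vv] <;> linarith)
  have nI13 := N 10 13 (by decide) (by decide) (by decide) (by simp [vv] <;> linarith)
  have nC11 := N 4 11 (by decide) (by decide) (by decide) (by simp [vv] <;> linarith)
  have nD11 := N 5 11 (by decide) (by decide) (by decide) (by simp [vv] <;> linarith)
  have nE11 := N 6 11 (by decide) (by decide) (by decide) (by simp [vv] <;> linarith)
  have nF11 := N 7 11 (by decide) (by decide) (by decide) (by simp [vv] <;> linarith)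
  have nG12 := N 8 12 (by decide) (by decide) (by decide) (by simp [vv] <;> linarith)
  have nG13 := N 8 13 (by decide) (by decide) (by decide) (by simp [vv] <;> linarith)
  have nH11 := N 9 11 (by decide) (by decide) (by decide) (by simp [vv] <;> linarith)
  have nH13 := N 9 13 (by decide) (by decide) (by decide) (by simp [vv] <;> linarith)
  have nB14 := N 3 14 (by decide) (by decide) (by decide) (by simp [vv] <;> linarith)
  have nA15 := N 2 15 (by decide) (by decide) (by decide) (by simp [vv] <;> linarith)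
  have nA16 := N 2 16 (by decide) (by decide) (by decide) (by simp [vv] <;> linarith)
  have nA17 := N 2 17 (by decide) (by decide) (by decide) (by simp [vv] <;> linarith)
  have nA18 := N 2 18 (by decide) (by decide) (by decide) (by simp [vv] <;> linarith)
  have nA19 := N 2 19 (by decide) (by decide) (by decide) (by simp [vv] <;> linarith)
  have q4 := col (x0 := ll Q 11 0 1) (x1 := ll Q 11 1 0) (x2 := ll Q 11 1 1) (y0 := ll Q 12 0 1) (y1 := ll Q 12 1 0) (y2 := ll Q 12 1 1) (z0 := ll Q 13 0 1) (z1 := ll Q 13 1 0) (z2 := ll Q 13 1 1)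
    zA14 zD14 zG14 nB14
  have q5 := col (x0 := ll Q 11 0 1) (x1 := ll Q 11 1 0) (x2 := ll Q 11 1 1) (y0 := ll Q 12 0 1) (y1 := ll Q 12 1 0) (y2 := ll Q 12 1 1) (z0 := ll Q 13 0 1) (z1 := ll Q 13 1 0) (z2 := ll Q 13 1 1)
    zB15 zC15 zH15 nA15
  have q6 := col (x0 := ll Q 11 0 1) (x1 := ll Q 11 1 0) (x2 := ll Q 11 1 1) (y0 := ll Q 12 0 1) (y1 := ll Q 12 1 0) (y2 := ll Q 12 1 1) (z0 := ll Q 13 0 1) (z1 := ll Q 13 1 0) (z2 := ll Q 13 1 1)
    zI16 zC16 zF16 nA16
  have q7 := col (x0 := ll Q 11 0 1) (x1 := ll Q 11 1 0) (x2 := ll Q 11 1 1) (y0 := ll Q 12 0 1) (y1 := ll Q 12 1 0) (y2 := ll Q 12 1 1) (z0 := ll Q 13 0 1) (z1 := ll Q 13 1 0) (z2 := ll Q 13 1 1)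
    zI17 zD17 zE17 nA17
  have q8 := col (x0 := ll Q 11 0 1) (x1 := ll Q 11 1 0) (x2 := ll Q 11 1 1) (y0 := ll Q 12 0 1) (y1 := ll Q 12 1 0) (y2 := ll Q 12 1 1) (z0 := ll Q 13 0 1) (z1 := ll Q 13 1 0) (z2 := ll Q 13 1 1)
    zC18 zE18 zG18 nA18
  have q9 := col (x0 := ll Q 11 0 1) (x1 := ll Q 11 1 0) (x2 := ll Q 11 1 1) (y0 := ll Q 12 0 1) (y1 := ll Q 12 1 0) (y2 := ll Q 12 1 1) (z0 := ll Q 13 0 1) (z1 := ll Q 13 1 0) (z2 := ll Q 13 1 1)
    zD19 zF19 zH19 nA19
  simp only [zB11, zG11, zI11, zA12, zH12, zI12, zA13, zB13, zE13, zF13] at q4 q5 q6 q7 q8 q9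
  exact fin nA11 nB12 nI13 nC11 nD11 nE11 nF11 nG12 nG13 nH11 nH13 q4 q5 q6 q7 q8 q9

end Pool.Agent.H.MP_c213cb_ag
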